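import Pool.Agent.MP65cbfa.Geometry

/-!
# An indecomposable arrangement with `β_{r,n} ≠ β_{0,0}`

The arrangement of the seven hyperplanes
`x₀ = 0, x₁ = 0, x₀ + x₁ = 0, x₂ = 0, x₃ = 0, x₄ = 0, x₀ + x₁ + x₂ + x₃ + x₄ = 0` of `ℝ⁵`.
-/

set_option autoImplicit false

namespace Pool.Agent.Results.MP_65cbfa_co.RankFive

open Pool.Agent.MP65cbfa Set

/-- coordinate functionals -/
noncomputable def pr (j : Fin 5) : (Fin 5 → ℝ) →ₗ[ℝ] ℝ := LinearMap.proj j

/-- The seven functionals. -/
noncomputable def fl : Fin 7 → ((Fin 5 → ℝ) →ₗ[ℝ] ℝ) :=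
  ![pr 0, pr 1, pr 0 + pr 1, pr 2, pr 3, pr 4, pr 0 + pr 1 + pr 2 + pr 3 + pr 4]

/-- The same functionals on integer vectors. -/
def fz (i : Fin 7) (P : Fin 5 → ℤ) : ℤ :=
  (![P 0, P 1, P 0 + P 1, P 2, P 3, P 4, P 0 + P 1 + P 2 + P 3 + P 4] : Fin 7 → ℤ) i

theorem fl_cast (i : Fin 7) (P : Fin 5 → ℤ) : fl i (fun j => (P j : ℝ)) = (fz i P : ℝ) := by
  fin_cases i <;> simp [fl, fz, pr]

/-- A point lying only on the hyperplane `i`. -/
def onlyPt : Fin 7 → Fin 5 → ℤ :=
  ![![0, 1, 1, 1, 1], ![1, 0, 1, 1, 1], ![1, -1, 1, 1, 1], ![1, 1, 0, 1, 1], ![1, 1, 1, 0, 1],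
    ![1, 1, 1, 1, 0], ![1, 1, -5, 1, 2]]

theorem onlyPt_spec : ∀ i j : Fin 7, fz j (onlyPt i) = 0 ↔ i = j := by decide

theorem ker_inj : Function.Injective fun i => LinearMap.ker (fl i) := by
  intro i j hij
  have h1 : (fun k => (onlyPt i k : ℝ)) ∈ LinearMap.ker (fl i) := by
    rw [LinearMap.mem_ker, fl_cast, (onlyPt_spec i i).2 rfl]; simp
  have h2 : (fun k => (onlyPt i k : ℝ)) ∈ LinearMap.ker (fl j) := by
    have : LinearMap.ker (fl i) = LinearMap.ker (fl j) := hij
    rw [← this]; exact h1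
  rw [LinearMap.mem_ker, fl_cast] at h2
  exact (onlyPt_spec i j).1 (by exact_mod_cast h2)

theorem fz_one : ∀ i, fz i (fun _ => 1) ≠ 0 := by decide

theorem fl_ne : ∀ i, fl i ≠ 0 := by
  intro i h
  have h1 := fl_cast i (fun _ => 1)
  rw [h] at h1
  simp only [LinearMap.zero_apply] at h1
  exact fz_one i (by exact_mod_cast h1.symm)

/-- The arrangement. -/
noncomputable def A : Arrangement 5 := arr fl fl_ne

theorem A_n : A.n = 7 := by
  classical
  change (Finset.univ.image fun i => LinearMap.ker (fl i)).card = 7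
  rw [Finset.card_image_of_injective _ ker_inj]
  simp

theorem A_rank : A.rank = 5 := by
  have h : A.center = ⊥ := by
    rw [eq_bot_iff]
    intro x hx
    have hx' : ∀ i, fl i x = 0 := by
      intro i
      have h1 : x ∈ LinearMap.ker (fl i) :=
        (Submodule.mem_sInf.1 hx) _ ((mem_hyps fl_ne _).2 ⟨i, rfl⟩)
      exact h1
    rw [Submodule.mem_bot]
    have e0 := hx' 0
    have e1 := hx' 1
    have e2 := hx' 3
    have e3 := hx' 4
    have e4 := hx' 5
    funext j
    fin_cases j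
    · simpa [fl, pr] using e0
    · simpa [fl, pr] using e1
    · simpa [fl, pr] using e2
    · simpa [fl, pr] using e3
    · simpa [fl, pr] using e4
  unfold Arrangement.rank
  rw [h]
  simp

/-- basis vectors -/
def ePt (j : Fin 5) : Fin 5 → ℤ := fun k => if k = j then 1 else 0

theorem fl2 (x : Fin 5 → ℝ) : fl 2 x = fl 0 x + fl 1 x := by simp [fl]

theorem fl6 (x : Fin 5 → ℝ) : fl 6 x = fl 2 x + fl 3 x + fl 4 x + fl 5 x := by simp [fl]

theorem all_of_two (V W : Submodule ℝ (Fin 5 → ℝ)) (hc : IsCompl V W)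
    (hall : ∀ i, W ≤ LinearMap.ker (fl i) ∨ V ≤ LinearMap.ker (fl i))
    (h2 : W ≤ LinearMap.ker (fl 2)) : ∀ i, W ≤ LinearMap.ker (fl i) := by
  have dec : ∀ j : Fin 5, ∃ a b : Fin 5 → ℝ, a ∈ V ∧ b ∈ W ∧
      ∀ i, fl i a + fl i b = (fz i (ePt j) : ℝ) := by
    intro j
    have hmem : (fun k => (ePt j k : ℝ)) ∈ V ⊔ W := by rw [hc.sup_eq_top]; trivial
    obtain ⟨a, ha, b, hb, hab⟩ := Submodule.mem_sup.1 hmem
    refine ⟨a, b, ha, hb, fun i => ?_⟩
    rw [← map_add, hab, fl_cast]
  have hz : ∀ (a b : Fin 5 → ℝ), a ∈ V → b ∈ W → ∀ i, fl i a + fl i b = 0 → fl i a = 0 := by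
    intro a b ha hb i h
    rcases hall i with h' | h'
    · have : fl i b = 0 := h' hb
      linarith
    · exact h' ha
  -- index 6
  have h6 : W ≤ LinearMap.ker (fl 6) := by
    rcases hall 6 with h | h
    · exact h
    · exfalso
      obtain ⟨a, b, ha, hb, hab⟩ := dec 0
      have k2 := hab 2
      have k3 := hz a b ha hb 3 (by rw [hab 3]; simp [show fz 3 (ePt 0) = 0 by decide])
      have k4 := hz a b ha hb 4 (by rw [hab 4]; simp [show fz 4 (ePt 0) = 0 by decide])
      have k5 := hz a b ha hb 5 (by rw [hab 5]; simp [show fz 5 (ePt 0) = 0 by decide])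
      have kb : fl 2 b = 0 := h2 hb
      have ka : fl 6 a = 0 := h ha
      rw [show fz 2 (ePt 0) = 1 by decide] at k2
      have := fl6 a
      push_cast at k2
      linarith
  have h0 : W ≤ LinearMap.ker (fl 0) := by
    rcases hall 0 with h | h
    · exact h
    · exfalso
      obtain ⟨a, b, ha, hb, hab⟩ := dec 0
      have k2 := hab 2
      have k1 := hz a b ha hb 1 (by rw [hab 1]; simp [show fz 1 (ePt 0) = 0 by decide])
      have kb : fl 2 b = 0 := h2 hb
      have ka : fl 0 a = 0 := h ha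
      rw [show fz 2 (ePt 0) = 1 by decide] at k2
      have := fl2 a
      push_cast at k2
      linarith
  have h1 : W ≤ LinearMap.ker (fl 1) := by
    rcases hall 1 with h | h
    · exact h
    · exfalso
      obtain ⟨a, b, ha, hb, hab⟩ := dec 1
      have k2 := hab 2
      have k0 := hz a b ha hb 0 (by rw [hab 0]; simp [show fz 0 (ePt 1) = 0 by decide])
      have kb : fl 2 b = 0 := h2 hb
      have ka : fl 1 a = 0 := h ha
      rw [show fz 2 (ePt 1) = 1 by decide] at k2
      have := fl2 a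
      push_cast at k2
      linarith
  have h3 : W ≤ LinearMap.ker (fl 3) := by
    rcases hall 3 with h | h
    · exact h
    · exfalso
      obtain ⟨a, b, ha, hb, hab⟩ := dec 2
      have k6 := hab 6
      have k2 := hz a b ha hb 2 (by rw [hab 2]; simp [show fz 2 (ePt 2) = 0 by decide])
      have k4 := hz a b ha hb 4 (by rw [hab 4]; simp [show fz 4 (ePt 2) = 0 by decide])
      have k5 := hz a b ha hb 5 (by rw [hab 5]; simp [show fz 5 (ePt 2) = 0 by decide])
      have kb : fl 6 b = 0 := h6 hb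
      have ka : fl 3 a = 0 := h ha
      rw [show fz 6 (ePt 2) = 1 by decide] at k6
      have := fl6 a
      push_cast at k6
      linarith
  have h4 : W ≤ LinearMap.ker (fl 4) := by
    rcases hall 4 with h | h
    · exact h
    · exfalso
      obtain ⟨a, b, ha, hb, hab⟩ := dec 3
      have k6 := hab 6
      have k2 := hz a b ha hb 2 (by rw [hab 2]; simp [show fz 2 (ePt 3) = 0 by decide])
      have k3 := hz a b ha hb 3 (by rw [hab 3]; simp [show fz 3 (ePt 3) = 0 by decide])
      have k5 := hz a b ha hb 5 (by rw [hab 5]; simp [show fz 5 (ePt 3) = 0 by decide])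
      have kb : fl 6 b = 0 := h6 hb
      have ka : fl 4 a = 0 := h ha
      rw [show fz 6 (ePt 3) = 1 by decide] at k6
      have := fl6 a
      push_cast at k6
      linarith
  have h5 : W ≤ LinearMap.ker (fl 5) := by
    rcases hall 5 with h | h
    · exact h
    · exfalso
      obtain ⟨a, b, ha, hb, hab⟩ := dec 4
      have k6 := hab 6
      have k2 := hz a b ha hb 2 (by rw [hab 2]; simp [show fz 2 (ePt 4) = 0 by decide])
      have k3 := hz a b ha hb 3 (by rw [hab 3]; simp [show fz 3 (ePt 4) = 0 by decide])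
      have k4 := hz a b ha hb 4 (by rw [hab 4]; simp [show fz 4 (ePt 4) = 0 by decide])
      have kb : fl 6 b = 0 := h6 hb
      have ka : fl 5 a = 0 := h ha
      rw [show fz 6 (ePt 4) = 1 by decide] at k6
      have := fl6 a
      push_cast at k6
      linarith
  intro i
  fin_cases i
  · exact h0
  · exact h1
  · exact h2
  · exact h3
  · exact h4
  · exact h5
  · exact h6

theorem not_both (V W : Submodule ℝ (Fin 5 → ℝ)) (hc : IsCompl V W) (i : Fin 7)
    (h1 : V ≤ LinearMap.ker (fl i)) (h2 : W ≤ LinearMap.ker (fl i)) : False := by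
  apply fl_ne i
  rw [← LinearMap.ker_eq_top, eq_top_iff, ← hc.sup_eq_top]
  exact sup_le h1 h2

theorem A_indecomposable : A.Indecomposable := by
  rintro ⟨V₁, V₂, hc, hall', ⟨H₁, hH₁, hV₂⟩, ⟨H₂, hH₂, hV₁⟩⟩
  have hall : ∀ i, V₂ ≤ LinearMap.ker (fl i) ∨ V₁ ≤ LinearMap.ker (fl i) := fun i =>
    hall' _ ((mem_hyps fl_ne _).2 ⟨i, rfl⟩)
  obtain ⟨i₁, rfl⟩ := (mem_hyps fl_ne _).1 hH₁
  obtain ⟨i₂, rfl⟩ := (mem_hyps fl_ne _).1 hH₂
  rcases hall 2 with h | h
  · exact not_both V₁ V₂ hc i₂ hV₁ (all_of_two V₁ V₂ hc hall h i₂)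
  · exact not_both V₁ V₂ hc i₁ (all_of_two V₂ V₁ hc.symm (fun j => (hall j).symm) h i₁) hV₂

/-! ### The hexagons -/

/-- position in the hexagon of a sign pattern on the first three hyperplanes -/
def hx : Bool → Bool → Bool → Fin 6
  | true, true, true => 0
  | false, true, true => 1
  | false, true, false => 2
  | false, false, false => 3
  | true, false, false => 4
  | true, false, true => 5
  | true, true, false => 0
  | false, false, true => 0

/-- realisable sign patterns on the first three hyperplanes -/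
def ok3 (a b c : Bool) : Bool := !(a == b && c != a)

theorem ok3_of_nonempty {s : Fin 7 → Bool} (h : (cell fl s).Nonempty) :
    ok3 (s 0) (s 1) (s 2) = true := by
  obtain ⟨x, hx⟩ := h
  have h0 := hx 0
  have h1 := hx 1
  have h2 := hx 2
  rw [fl2] at h2
  cases e0 : s 0 <;> cases e1 : s 1 <;> cases e2 : s 2 <;>
    simp only [e0, e1, e2, Bool.false_eq_true, if_true, if_false] at h0 h1 h2 <;>
    first | rfl | (exfalso; linarith)

/-- sign vectors along the hexagon -/
def hs (a : Fin 6) (τ : Fin 4 → Bool) : Fin 7 → Bool :=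
  ![(![true, false, false, false, true, true] : Fin 6 → Bool) a,
    (![true, true, true, false, false, false] : Fin 6 → Bool) a,
    (![true, true, false, false, false, true] : Fin 6 → Bool) a, τ 0, τ 1, τ 2, τ 3]

/-- realisable sign patterns on the last four hyperplanes, inside `x₀ = x₁ = 0` -/
def okt (τ : Fin 4 → Bool) : Bool := !(τ 0 == τ 1 && τ 1 == τ 2 && τ 3 != τ 0)

/-- a coordinate of the witness point -/
def vv (τ : Fin 4 → Bool) (j : Fin 4) : ℤ :=
  if τ j = τ 3 then (if τ 3 = true then 7 else -7) else (if τ j = true then 1 else -1)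

/-- witness points -/
def pt (a : Fin 6) (τ : Fin 4 → Bool) : Fin 5 → ℤ :=
  ![(![1, -1, -2, -1, 1, 2] : Fin 6 → ℤ) a, (![1, 2, 1, -1, -2, -1] : Fin 6 → ℤ) a,
    vv τ 0, vv τ 1, vv τ 2]

theorem pt_spec : ∀ (a : Fin 6) (τ : Fin 4 → Bool), okt τ = true → ∀ i,
    if hs a τ i = true then 0 < fz i (pt a τ) else fz i (pt a τ) < 0 := by
  decide

theorem hs_nonempty (a : Fin 6) (τ : Fin 4 → Bool) (h : okt τ = true) :
    (cell fl (hs a τ)).Nonempty := by
  refine ⟨fun j => (pt a τ j : ℝ), fun i => ?_⟩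
  have := pt_spec a τ h i
  rw [fl_cast]
  split_ifs with h1
  · rw [if_pos h1] at this
    exact_mod_cast this
  · rw [if_neg h1] at this
    exact_mod_cast this

theorem hs_adj' : ∀ (a : Fin 6) (τ : Fin 4 → Bool), ∃ i, hs a τ i ≠ hs (a + 1) τ i ∧
    ∀ j, hs a τ j ≠ hs (a + 1) τ j → j = i := by
  decide

theorem hs_adj (a : Fin 6) (τ : Fin 4 → Bool) : ∃! i, hs a τ i ≠ hs (a + 1) τ i := by
  obtain ⟨i, h1, h2⟩ := hs_adj' a τ
  exact ⟨i, h1, h2⟩

theorem hx_hs : ∀ (a : Fin 6) (τ : Fin 4 → Bool), hx (hs a τ 0) (hs a τ 1) (hs a τ 2) = a := by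
  decide

theorem hx_lip : ∀ a b c a' b' c' : Bool, ok3 a b c = true → ok3 a' b' c' = true →
    ((a = a' ∧ b = b') ∨ (a = a' ∧ c = c') ∨ (b = b' ∧ c = c')) →
    d6 (hx a b c) (hx a' b' c') ≤ 1 := by
  decide

/-- the chamber at position `a` of the hexagon `τ` -/
noncomputable def sC (τ : {τ : Fin 4 → Bool // okt τ = true}) (a : Fin 6) : A.chambers :=
  chm fl_ne (hs a τ.1) (hs_nonempty a τ.1 τ.2)

theorem code_sC (τ : {τ : Fin 4 → Bool // okt τ = true}) (a : Fin 6) :
    code fl_ne (sC τ a) = hs a τ.1 := code_chm _ _ _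

/-- the position of a chamber relative to the first three hyperplanes -/
noncomputable def pos (C : A.chambers) : Fin 6 :=
  hx (code fl_ne C 0) (code fl_ne C 1) (code fl_ne C 2)

theorem pos_sC (τ : {τ : Fin 4 → Bool // okt τ = true}) (a : Fin 6) : pos (sC τ a) = a := by
  unfold pos
  rw [code_sC]
  exact hx_hs a τ.1

theorem pos_lip (C D : A.chambers) (h : A.topeGraph.Adj C D) : d6 (pos C) (pos D) ≤ 1 := by
  obtain ⟨i, hi, huniq⟩ := (adj_iff fl_ne ker_inj C D).1 h
  have huniq' : ∀ j, j ≠ i → code fl_ne C j = code fl_ne D j := by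
    intro j hj
    by_contra h'
    exact hj (huniq j h')
  apply hx_lip _ _ _ _ _ _ (ok3_of_nonempty (code_nonempty fl_ne C))
    (ok3_of_nonempty (code_nonempty fl_ne D))
  by_cases h0 : i = 0
  · right; right
    exact ⟨huniq' 1 (by rw [h0]; decide), huniq' 2 (by rw [h0]; decide)⟩
  · by_cases h1 : i = 1
    · right; left
      exact ⟨huniq' 0 (Ne.symm h0), huniq' 2 (by rw [h1]; decide)⟩
    · left
      exact ⟨huniq' 0 (Ne.symm h0), huniq' 1 (Ne.symm h1)⟩

theorem sC_adj (τ : {τ : Fin 4 → Bool // okt τ = true}) (a : Fin 6) :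
    A.topeGraph.Adj (sC τ a) (sC τ (a + 1)) := by
  rw [show A.topeGraph.Adj (sC τ a) (sC τ (a + 1)) ↔ _ from adj_iff fl_ne ker_inj _ _]
  rw [code_sC, code_sC]
  exact hs_adj a τ.1

/-- dihedral symmetries of the hexagon -/
def rot (a : Fin 6) (ε : Bool) (b : Fin 6) : Fin 6 := if ε = true then a + b else a - b

/-- their inverses -/
def rotinv (a : Fin 6) (ε : Bool) (b : Fin 6) : Fin 6 := if ε = true then b - a else a - b

theorem d6_rot : ∀ (a : Fin 6) (ε : Bool) (b c : Fin 6), d6 (rot a ε b) (rot a ε c) = d6 b c := by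
  decide

theorem d6_rotinv : ∀ (a : Fin 6) (ε : Bool) (b c : Fin 6),
    d6 (rotinv a ε b) (rotinv a ε c) = d6 b c := by
  decide

theorem rotinv_rot : ∀ (a : Fin 6) (ε : Bool) (b : Fin 6), rotinv a ε (rot a ε b) = b := by
  decide

theorem rot_inj : ∀ (a a' : Fin 6) (ε ε' : Bool), rot a ε 0 = rot a' ε' 0 →
    rot a ε 1 = rot a' ε' 1 → a = a' ∧ ε = ε' := by
  decide

/-- the index set -/
abbrev J : Type := {τ : Fin 4 → Bool // okt τ = true} × Fin 6 × Bool

theorem card_J : Fintype.card J = 168 := by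
  have h : Fintype.card {τ : Fin 4 → Bool // okt τ = true} = 14 := by decide
  rw [Fintype.card_prod, h, Fintype.card_prod, Fintype.card_fin, Fintype.card_bool]

theorem hs_tau_inj (a : Fin 6) (τ τ' : Fin 4 → Bool) (h : hs a τ = hs a τ') : τ = τ' := by
  have h3 := congrFun h 3
  have h4 := congrFun h 4
  have h5 := congrFun h 5
  have h6 := congrFun h 6
  funext j
  fin_cases j
  · exact h3
  · exact h4
  · exact h5
  · exact h6

instance : Finite A.chambers := Finite.of_injective _ (code_inj fl_ne)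

theorem lower : 168 ≤ A.beta 5 7 := by
  rw [← card_J]
  have hpos := fun x y => lip_of_adj (G := A.topeGraph) pos_lip x y
  refine card_le_betti A.topeGraph.edist (isMet_edist _) (fun _ => SimpleGraph.edist_self)
    (fun j b => sC j.1 (rot j.2.1 j.2.2 b)) (fun j C => rotinv j.2.1 j.2.2 (pos C))
    ?_ ?_ ?_ ?_
  · rintro ⟨τ, a, ε⟩ b c
    apply le_antisymm
    · have := edist_hex_le (G := A.topeGraph) (sC_adj τ) (rot a ε b) (rot a ε c)
      rwa [d6_rot] at this
    · have := hpos (sC τ (rot a ε b)) (sC τ (rot a ε c))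
      rwa [pos_sC, pos_sC, d6_rot] at this
  · rintro ⟨τ, a, ε⟩ x y
    rw [d6_rotinv]
    exact hpos x y
  · rintro ⟨τ, a, ε⟩ b
    change rotinv a ε (pos (sC τ (rot a ε b))) = b
    rw [pos_sC, rotinv_rot]
  · rintro ⟨τ, a, ε⟩ ⟨τ', a', ε'⟩ h0 h1
    have p0 := congrArg pos h0
    have p1 := congrArg pos h1
    simp only [pos_sC] at p0 p1
    obtain ⟨rfl, rfl⟩ := rot_inj a a' ε ε' p0 p1
    have c0 := congrArg (code fl_ne) h0
    simp only [code_sC] at c0
    have := hs_tau_inj _ _ _ c0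
    have : τ = τ' := Subtype.ext this
    rw [this]

theorem upper : A.beta 0 0 ≤ 96 := by
  refine (betti_zero_le A.topeGraph.edist 0).trans ?_
  have hcard : Fintype.card {s : Fin 7 → Bool // ok3 (s 0) (s 1) (s 2) = true} = 96 := by
    decide +kernel
  rw [← hcard, ← Nat.card_eq_fintype_card]
  refine Nat.card_le_card_of_injective
    (fun C : A.chambers => (⟨code fl_ne C, ok3_of_nonempty (code_nonempty fl_ne C)⟩ :
      {s : Fin 7 → Bool // ok3 (s 0) (s 1) (s 2) = true})) ?_
  intro C D h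
  exact code_inj fl_ne (congrArg Subtype.val h)

/-- **Main theorem.** There is an indecomposable arrangement of `n = 7` hyperplanes of rank
`r = 5` (in `ℝ⁵`) with `β_{0,0} < β_{r,n}`; in fact `β_{0,0} ≤ 96` and `β_{5,7} ≥ 168`. -/
theorem result : ∃ A : Arrangement 5, A.Indecomposable ∧ A.rank = 5 ∧ A.n = 7 ∧
    A.beta 0 0 ≤ 96 ∧ 168 ≤ A.beta A.rank A.n := by
  refine ⟨A, A_indecomposable, A_rank, A_n, upper, ?_⟩
  rw [A_rank, A_n]
  exact lower

end Pool.Agent.Results.MP_65cbfa_co.RankFive
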